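import Mathlib

/-!
# Strong external difference families with `lambda = 1` in arbitrary finite groups

Let `A 1, ..., A m` be an `(n, m, k, 1)`-SEDF in a group `G`, let `B i` be the matrix of `A i` in
the regular representation restricted to the orthogonal complement of the constants, and let
`S = ∑ B i`. Then `B i (S - B i)ᵀ = -1`, from which `Q i = 2 (B i)ᵀ (B i) - P - 2`, `P = Sᵀ S`,
commutes with `P`, satisfies `(Q i)² = P² + 4 P`, and `∑ Q i = (2 - m) P`. On the eigenspace of
`P` for an eigenvalue `t > 0` the trace of `Q i` is an integer multiple of `√(t² + 4t)`. Hence, for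
`m ≥ 3`, `t` is rational, so an integer, and `t² + 4t` is a perfect square, which is impossible.
So `S = 0`, that is, the union of the `A i` is the whole group, and `n = m k` contradicts
`n - 1 = k² (m - 1)` unless `k = 1`.
-/

set_option autoImplicit false

namespace Pool.Agent.Results.MP_2fa8e1_co.NoLambdaOne
open Matrix Finset

/-! ### Linear algebra -/

section LinAlg

variable {G : Type*} [Fintype G] [DecidableEq G]

/-- The trace of an endomorphism whose square is `c` times the identity, `c = s ^ 2 > 0`,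
is an integer multiple of `s`. -/
theorem trace_of_sq {V : Type*} [AddCommGroup V] [Module ℝ V] [FiniteDimensional ℝ V]
    (q : V →ₗ[ℝ] V) (s : ℝ) (hs : 0 < s) (hq : q * q = (s ^ 2) • (1 : V →ₗ[ℝ] V)) :
    ∃ z : ℤ, LinearMap.trace ℝ V q = z * s := by
  set e : V →ₗ[ℝ] V := (1 / 2 : ℝ) • ((1 : V →ₗ[ℝ] V) + (1 / s) • q) with he
  have hidem : IsIdempotentElem e := by
    unfold IsIdempotentElem
    rw [he]
    have hs' : s ≠ 0 := hs.ne'
    have h1 : (1 / s) • q * (1 / s) • q = (1 : V →ₗ[ℝ] V) := by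
      rw [smul_mul_smul_comm, hq, smul_smul]
      rw [show (1 / s * (1 / s) * s ^ 2 : ℝ) = 1 by field_simp, one_smul]
    rw [smul_mul_smul_comm, add_mul, mul_add, mul_add, h1]
    simp only [one_mul, mul_one]
    rw [show (1 : V →ₗ[ℝ] V) + (1 / s) • q + ((1 / s) • q + 1) = (2 : ℝ) • (1 + (1 / s) • q) by
      rw [two_smul]; abel]
    rw [smul_smul]
    norm_num
  have h1 : LinearMap.trace ℝ V e = (Module.finrank ℝ (LinearMap.range e) : ℝ) :=
    (LinearMap.IsIdempotentElem.isProj_range e hidem).trace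
  have h2 : LinearMap.trace ℝ V e
      = (1 / 2) * ((Module.finrank ℝ V : ℝ) + (1 / s) * LinearMap.trace ℝ V q) := by
    rw [he]
    simp only [map_smul, map_add, smul_eq_mul, LinearMap.trace_one]
  refine ⟨2 * Module.finrank ℝ (LinearMap.range e) - Module.finrank ℝ V, ?_⟩
  rw [h1] at h2
  push_cast
  have hs' : s ≠ 0 := hs.ne'
  field_simp at h2
  linarith

/-- Eigenvalues of integer matrices are algebraic integers. -/
theorem isIntegral_eigenvalue (N : Matrix G G ℤ) (v : G → ℝ) (t : ℝ) (hv : v ≠ 0)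
    (h : (N.map (Int.cast : ℤ → ℝ)) *ᵥ v = t • v) : IsIntegral ℤ t := by
  refine ⟨N.charpoly, N.charpoly_monic, ?_⟩
  have h1 : Module.End.HasEigenvector (Matrix.toLin' (N.map (Int.cast : ℤ → ℝ))) t v := by
    refine ⟨Module.End.mem_eigenspace_iff.2 ?_, hv⟩
    rw [Matrix.toLin'_apply, h]
  have h2 := Module.End.aeval_apply_of_hasEigenvector (p := (N.map (Int.cast : ℤ → ℝ)).charpoly) h1
  have h3 : Polynomial.aeval (Matrix.toLin' (N.map (Int.cast : ℤ → ℝ)))
      (N.map (Int.cast : ℤ → ℝ)).charpoly = 0 := by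
    rw [← Matrix.charpoly_toLin']
    exact LinearMap.aeval_self_charpoly _
  rw [h3] at h2
  have h4 : (N.map (Int.cast : ℤ → ℝ)).charpoly = N.charpoly.map (Int.castRingHom ℝ) := by
    have := Matrix.charpoly_map N (Int.castRingHom ℝ)
    rw [← this]
    rfl
  rw [h4, Polynomial.eval_map] at h2
  have h5 : Polynomial.eval₂ (Int.castRingHom ℝ) t N.charpoly • v = 0 := by
    rw [← h2]; rfl
  rcases smul_eq_zero.1 h5 with h | h
  · exact h
  · exact absurd h hv

theorem int_of_rat {t : ℝ} (hint : IsIntegral ℤ t) (q : ℚ) (h : t = q) : ∃ L : ℤ, t = L := by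
  have h1 : IsIntegral ℤ (algebraMap ℚ ℝ q) := by
    rw [h] at hint; exact hint
  have h2 : IsIntegral ℤ q := (isIntegral_algebraMap_iff (algebraMap ℚ ℝ).injective).1 h1
  obtain ⟨L, hL⟩ := IsIntegrallyClosed.isIntegral_iff.1 h2
  refine ⟨L, ?_⟩
  rw [h, ← hL]
  simp

theorem arith (t : ℝ) (ht : 0 < t) (hint : IsIntegral ℤ t) (m : ℕ) (hm : 3 ≤ m) (d : ℕ)
    (hd : 0 < d) (z : ℤ) (h : z * Real.sqrt (t ^ 2 + 4 * t) = (2 - m) * t * d) : False := by
  have hsq : Real.sqrt (t ^ 2 + 4 * t) ^ 2 = t ^ 2 + 4 * t := Real.sq_sqrt (by positivity)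
  have h1 : (z : ℝ) ^ 2 * (t ^ 2 + 4 * t) = ((m : ℝ) - 2) ^ 2 * d ^ 2 * t ^ 2 := by
    rw [← hsq, ← mul_pow, h]; ring
  have h2 : (z : ℝ) ^ 2 * (t + 4) = ((m : ℝ) - 2) ^ 2 * d ^ 2 * t := by
    have := ht.ne'
    apply mul_right_cancel₀ this
    linarith
  have hm' : (0 : ℝ) < (m : ℝ) - 2 := by
    have : (3 : ℝ) ≤ m := by exact_mod_cast hm
    linarith
  have hd' : (0 : ℝ) < d := by exact_mod_cast hd
  have ha : (0 : ℝ) < ((m : ℝ) - 2) ^ 2 * d ^ 2 := by positivity
  have hb : (0 : ℝ) < (z : ℝ) ^ 2 := by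
    have h3 : 0 < (z : ℝ) ^ 2 * (t + 4) := by rw [h2]; positivity
    by_contra hcon
    have : (z : ℝ) ^ 2 = 0 := le_antisymm (not_lt.1 hcon) (sq_nonneg _)
    rw [this] at h3
    simp at h3
  have hab : ((m : ℝ) - 2) ^ 2 * d ^ 2 - (z : ℝ) ^ 2 ≠ 0 := by
    intro h0
    nlinarith
  obtain ⟨L, hL⟩ := int_of_rat hint ((4 * z ^ 2) / (((m : ℚ) - 2) ^ 2 * d ^ 2 - z ^ 2)) (by
    push_cast
    field_simp
    linarith)
  subst hL
  have hLpos : 0 < L := by exact_mod_cast ht
  -- integer equation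
  have h3 : z ^ 2 * (L ^ 2 + 4 * L) = (((m : ℤ) - 2) * d * L) ^ 2 := by
    have : ((z ^ 2 * (L ^ 2 + 4 * L) : ℤ) : ℝ) = (((((m : ℤ) - 2) * d * L) ^ 2 : ℤ) : ℝ) := by
      push_cast
      rw [h1]; ring
    exact_mod_cast this
  have h4 : z ∣ ((m : ℤ) - 2) * d * L := by
    rw [← Int.pow_dvd_pow_iff (n := 2) (by norm_num), ← h3]
    exact dvd_mul_right _ _
  obtain ⟨w, hw⟩ := h4
  have hz : z ≠ 0 := by
    rintro rfl
    simp at hb
  have h5 : L ^ 2 + 4 * L = w ^ 2 := by
    have : z ^ 2 * (L ^ 2 + 4 * L) = z ^ 2 * w ^ 2 := by rw [h3, hw]; ring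
    exact mul_left_cancel₀ (pow_ne_zero 2 hz) this
  have h6 : |w| ^ 2 = w ^ 2 := sq_abs w
  have h7 : 0 ≤ |w| := abs_nonneg w
  generalize |w| = r at *
  have h8 : L + 1 ≤ r := by nlinarith
  have h9 : r < L + 2 := by nlinarith
  have h10 : r = L + 1 := by omega
  rw [h10] at h6
  have h11 : 2 * L = 1 := by nlinarith
  omega

theorem spectral {m : ℕ} (hm : 3 ≤ m) (P : Matrix G G ℝ) (Q : Fin m → Matrix G G ℝ)
    (hP : P.IsHermitian) (hP0 : P ≠ 0) (hcomm : ∀ i, Q i * P = P * Q i)
    (hsq : ∀ i, Q i * Q i = P * P + (4 : ℝ) • P) (hsum : ∑ i, Q i = (2 - m : ℝ) • P)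
    (hpos : ∀ (v : G → ℝ) (t : ℝ), v ≠ 0 → P *ᵥ v = t • v → 0 ≤ t)
    (hint : ∀ (v : G → ℝ) (t : ℝ), v ≠ 0 → t ≠ 0 → P *ᵥ v = t • v → IsIntegral ℤ t) : False := by
  obtain ⟨v, t, ht, hv, hvt⟩ := hP.exists_eigenvector_of_ne_zero hP0
  have htpos : 0 < t := lt_of_le_of_ne (hpos v t hv hvt) ht.symm
  set V : Submodule ℝ (G → ℝ) := Module.End.eigenspace (Matrix.toLin' P) t with hV
  have hmem : ∀ x, x ∈ V ↔ P *ᵥ x = t • x := by
    intro x
    rw [hV, Module.End.mem_eigenspace_iff, Matrix.toLin'_apply]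
  have hstab : ∀ i, ∀ x ∈ V, Matrix.toLin' (Q i) x ∈ V := by
    intro i x hx
    rw [hmem] at hx ⊢
    rw [Matrix.toLin'_apply, Matrix.mulVec_mulVec, ← hcomm i, ← Matrix.mulVec_mulVec, hx,
      Matrix.mulVec_smul]
  let q : Fin m → (V →ₗ[ℝ] V) := fun i => (Matrix.toLin' (Q i)).restrict (hstab i)
  have hq : ∀ i (x : V), ((q i x : V) : G → ℝ) = Q i *ᵥ (x : G → ℝ) := by
    intro i x
    simp only [q, LinearMap.restrict_apply, Matrix.toLin'_apply]
  set s := Real.sqrt (t ^ 2 + 4 * t) with hs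
  have hspos : 0 < s := Real.sqrt_pos.2 (by positivity)
  have hs2 : s ^ 2 = t ^ 2 + 4 * t := Real.sq_sqrt (by positivity)
  have hqq : ∀ i, q i * q i = (s ^ 2) • (1 : V →ₗ[ℝ] V) := by
    intro i
    ext x : 1
    apply Subtype.ext
    have hx := (hmem x).1 x.2
    have e1 : (((q i * q i) x : V) : G → ℝ) = (Q i * Q i) *ᵥ (x : G → ℝ) := by
      rw [Module.End.mul_apply, hq, hq, Matrix.mulVec_mulVec]
    rw [e1, hsq i, Matrix.add_mulVec, ← Matrix.mulVec_mulVec, hx, Matrix.mulVec_smul, hx,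
      Matrix.smul_mulVec, hx, hs2]
    simp only [LinearMap.smul_apply, Module.End.one_apply, Submodule.coe_smul]
    rw [smul_smul, smul_smul, ← add_smul]
    congr 1
    ring
  have hqsum : ∑ i, q i = ((2 - m : ℝ) * t) • (1 : V →ₗ[ℝ] V) := by
    ext x : 1
    apply Subtype.ext
    have hx := (hmem x).1 x.2
    have e1 : (((∑ i, q i) x : V) : G → ℝ) = (∑ i, Q i) *ᵥ (x : G → ℝ) := by
      rw [LinearMap.sum_apply, AddSubmonoidClass.coe_finsetSum, Matrix.sum_mulVec]
      exact Finset.sum_congr rfl fun i _ => hq i x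
    rw [e1, hsum, Matrix.smul_mulVec, hx]
    simp only [LinearMap.smul_apply, Module.End.one_apply, Submodule.coe_smul]
    rw [smul_smul]
  choose z hz using fun i => trace_of_sq (q i) s hspos (hqq i)
  have htr := congrArg (LinearMap.trace ℝ V) hqsum
  rw [map_sum, map_smul, LinearMap.trace_one, Finset.sum_congr rfl (fun i _ => hz i),
    ← Finset.sum_mul, smul_eq_mul] at htr
  have hdim : 0 < Module.finrank ℝ V := by
    rw [Module.finrank_pos_iff_exists_ne_zero]
    refine ⟨⟨v, (hmem v).2 hvt⟩, ?_⟩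
    intro h
    exact hv (congrArg Subtype.val h)
  exact arith t htpos (hint v t hv ht hvt) m hm _ hdim (∑ i, z i) (by push_cast; exact htr)

theorem no_family {m : ℕ} (hm : 3 ≤ m) (E : Matrix G G ℝ) (B : Fin m → Matrix G G ℝ)
    (hEt : Eᵀ = E) (hEE : E * E = E) (hBE : ∀ i, B i * E = B i) (hEB : ∀ i, E * B i = B i)
    (hmain : ∀ i, B i * (∑ j, B j - B i)ᵀ = -E)
    (hS0 : ∑ j, B j ≠ 0)
    (hint : ∀ (v : G → ℝ) (t : ℝ), v ≠ 0 → t ≠ 0 →
      ((∑ j, B j)ᵀ * ∑ j, B j) *ᵥ v = t • v → IsIntegral ℤ t) : False := by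
  set S := ∑ j, B j with hS
  have hSE : S * E = S := by rw [hS, Finset.sum_mul]; exact Finset.sum_congr rfl fun i _ => hBE i
  have hES : E * S = S := by rw [hS, Finset.mul_sum]; exact Finset.sum_congr rfl fun i _ => hEB i
  have hStE : Sᵀ * E = Sᵀ := by
    have := congrArg Matrix.transpose hES
    rwa [Matrix.transpose_mul, hEt] at this
  have hESt : E * Sᵀ = Sᵀ := by
    have := congrArg Matrix.transpose hSE
    rwa [Matrix.transpose_mul, hEt] at this
  set C : Fin m → Matrix G G ℝ := fun i => (S - B i)ᵀ with hC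
  have hBC : ∀ i, B i * C i = -E := hmain
  have hCE : ∀ i, C i * E = C i := by
    intro i
    have : (E * (S - B i))ᵀ = (S - B i)ᵀ := by rw [mul_sub, hES, hEB]
    rwa [Matrix.transpose_mul, hEt] at this
  have hEC : ∀ i, E * C i = C i := by
    intro i
    have : ((S - B i) * E)ᵀ = (S - B i)ᵀ := by rw [sub_mul, hSE, hBE]
    rwa [Matrix.transpose_mul, hEt] at this
  have hCB : ∀ i, C i * B i = -E := by
    intro i
    have h1 : (B i + (1 - E)) * (-C i + (1 - E)) = 1 := by
      have : (B i + (1 - E)) * (-C i + (1 - E))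
          = -(B i * C i) + (B i - B i * E) - (C i - E * C i) + (1 - E - E + E * E) := by
        noncomm_ring
      rw [this, hBC, hBE, hEC, hEE]
      noncomm_ring
    have h2 : (-C i + (1 - E)) * (B i + (1 - E)) = 1 := mul_eq_one_comm.1 h1
    have h3 : (-C i + (1 - E)) * (B i + (1 - E))
          = -(C i * B i) + (B i - E * B i) - (C i - C i * E) + (1 - E - E + E * E) := by
        noncomm_ring
    rw [h3, hEB, hCE, hEE] at h2
    have h4 : C i * B i = -(-(C i * B i)) := (neg_neg _).symm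
    rw [h4]
    congr 1
    calc -(C i * B i) = (-(C i * B i) + (B i - B i) - (C i - C i) + (1 - E - E + E)) - 1 + E := by
          noncomm_ring
      _ = E := by rw [h2]; noncomm_ring
  set P := Sᵀ * S with hP
  set H : Fin m → Matrix G G ℝ := fun i => (B i)ᵀ * B i with hH
  have hStC : ∀ i, Sᵀ = C i + (B i)ᵀ := by
    intro i
    simp only [hC, Matrix.transpose_sub]
    abel
  have hSC : ∀ i, S = B i + (C i)ᵀ := by
    intro i
    simp only [hC, Matrix.transpose_transpose]
    abel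
  have hCBt : ∀ i, (B i)ᵀ * (C i)ᵀ = -E := by
    intro i
    rw [← Matrix.transpose_mul, hCB, Matrix.transpose_neg, hEt]
  have hPH0 : ∀ i, P = C i * (C i)ᵀ + H i - (2 : ℝ) • E := by
    intro i
    calc P = (C i + (B i)ᵀ) * (B i + (C i)ᵀ) := by rw [hP, ← hStC i, ← hSC i]
      _ = C i * B i + (C i * (C i)ᵀ) + ((B i)ᵀ * B i) + (B i)ᵀ * (C i)ᵀ := by noncomm_ring
      _ = _ := by
        rw [hCB, hCBt]
        simp only [hH]
        rw [two_smul]
        abel
  have hEH : ∀ i, E * H i = H i := by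
    intro i
    have : E * (B i)ᵀ = (B i)ᵀ := by
      have := congrArg Matrix.transpose (hBE i)
      rwa [Matrix.transpose_mul, hEt] at this
    simp only [hH]
    rw [← Matrix.mul_assoc, this]
  have hHE : ∀ i, H i * E = H i := by
    intro i
    simp only [hH]
    rw [Matrix.mul_assoc, hBE]
  have hHt : ∀ i, (H i)ᵀ = H i := by
    intro i
    simp only [hH]
    rw [Matrix.transpose_mul, Matrix.transpose_transpose]
  have hHCC : ∀ i, H i * (C i * (C i)ᵀ) = E := by
    intro i
    simp only [hH]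
    calc (B i)ᵀ * B i * (C i * (C i)ᵀ) = (B i)ᵀ * ((B i * C i) * (C i)ᵀ) := by
          simp only [Matrix.mul_assoc]
      _ = -((B i)ᵀ * (E * (C i)ᵀ)) := by rw [hBC]; simp
      _ = -((B i)ᵀ * (C i)ᵀ) := by
          have : E * (C i)ᵀ = (C i)ᵀ := by
            have := congrArg Matrix.transpose (hCE i)
            rwa [Matrix.transpose_mul, hEt] at this
          rw [this]
      _ = E := by rw [hCBt, neg_neg]
  have hCCH : ∀ i, (C i * (C i)ᵀ) * H i = E := by
    intro i
    have := congrArg Matrix.transpose (hHCC i)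
    rwa [Matrix.transpose_mul, Matrix.transpose_mul, Matrix.transpose_transpose, hHt, hEt] at this
  have hHP : ∀ i, H i * P = E + H i * H i - (2 : ℝ) • H i := by
    intro i
    rw [hPH0 i, mul_sub, mul_add, hHCC, mul_smul_comm, hHE]
  have hPH : ∀ i, P * H i = E + H i * H i - (2 : ℝ) • H i := by
    intro i
    conv_lhs => rw [hPH0 i]
    rw [sub_mul, add_mul, hCCH, smul_mul_assoc, hEH]
  have hPE : P * E = P := by rw [hP, Matrix.mul_assoc, hSE]
  have hEP : E * P = P := by rw [hP, ← Matrix.mul_assoc, hESt]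
  have hsumH : P = ∑ i, H i - (m : ℝ) • E := by
    have h1 : ∀ i, Sᵀ * B i = H i - E := by
      intro i
      rw [hStC i, add_mul, hCB]
      simp only [hH]
      abel
    calc P = Sᵀ * ∑ i, B i := by rw [hP]
      _ = ∑ i, (H i - E) := by
        rw [Finset.mul_sum]
        exact Finset.sum_congr rfl fun i _ => h1 i
      _ = _ := by
        rw [Finset.sum_sub_distrib]
        simp only [Finset.sum_const, Finset.card_univ, Fintype.card_fin,
          ← Nat.cast_smul_eq_nsmul ℝ]
  refine spectral hm P (fun i => (2 : ℝ) • H i - P - (2 : ℝ) • E) ?_ ?_ ?_ ?_ ?_ ?_ ?_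
  · rw [Matrix.IsHermitian, hP, Matrix.conjTranspose_eq_transpose_of_trivial,
      Matrix.transpose_mul, Matrix.transpose_transpose]
  · intro h0
    apply hS0
    rw [hP, ← Matrix.conjTranspose_eq_transpose_of_trivial] at h0
    exact Matrix.conjTranspose_mul_self_eq_zero.1 h0
  · intro i
    simp only [sub_mul, mul_sub, smul_mul_assoc, mul_smul_comm, hHP, hPH, hPE, hEP]
  · intro i
    simp only [sub_mul, mul_sub, smul_mul_assoc, mul_smul_comm, hHP, hPH, hPE, hEP, hEE, hHE, hEH]
    module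
  · rw [Finset.sum_sub_distrib, Finset.sum_sub_distrib, ← Finset.smul_sum]
    have h1 : ∑ i, H i = P + (m : ℝ) • E := by rw [hsumH]; abel
    rw [h1]
    simp only [Finset.sum_const, Finset.card_univ, Fintype.card_fin, ← Nat.cast_smul_eq_nsmul ℝ]
    module
  · intro v t hv hvt
    have h1 : v ⬝ᵥ (P *ᵥ v) = (S *ᵥ v) ⬝ᵥ (S *ᵥ v) := by
      rw [hP, ← Matrix.mulVec_mulVec, Matrix.dotProduct_mulVec, Matrix.vecMul_transpose]
    rw [hvt, dotProduct_smul, smul_eq_mul] at h1
    have h2 : 0 < v ⬝ᵥ v := by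
      rw [← star_trivial v]
      exact Matrix.dotProduct_star_self_pos_iff.2 hv
    have h3 : 0 ≤ (S *ᵥ v) ⬝ᵥ (S *ᵥ v) := Finset.sum_nonneg fun i _ => mul_self_nonneg _
    by_contra hcon
    have : t * (v ⬝ᵥ v) < 0 := mul_neg_of_neg_of_pos (not_le.1 hcon) h2
    linarith
  · intro v t hv ht hvt
    exact hint v t hv ht hvt

end LinAlg

/-! ### Strong external difference families -/

section SEDF

variable {G : Type*} [Group G] [Fintype G] [DecidableEq G]

/-- `(A 0, ..., A (m-1))` is an `(|G|, m, k, lam)` strong external difference family in the group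
`G`: the sets `A i` have `k` elements and are pairwise disjoint, and for every `i` every `g ≠ 1` has
exactly `lam` representations `g = x * y⁻¹` with `x ∈ A i`, `y ∈ A j`, `j ≠ i`. -/
structure IsSEDF (m k lam : ℕ) (A : Fin m → Finset G) : Prop where
  card_eq : ∀ i, (A i).card = k
  disjoint : ∀ i j, i ≠ j → Disjoint (A i) (A j)
  count : ∀ i, ∀ g : G, g ≠ 1 →
    ∑ j ∈ Finset.univ.erase i, ((A i ×ˢ A j).filter fun p => p.1 * p.2⁻¹ = g).card = lam

/-- The matrix of a subset in the regular representation. -/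
def mat (X : Finset G) : Matrix G G ℝ := Matrix.of fun g h => if g * h⁻¹ ∈ X then 1 else 0

/-- The all-ones matrix. -/
def J : Matrix G G ℝ := Matrix.of fun _ _ => 1

theorem mat_mul_transpose (X Y : Finset G) (g h : G) :
    (mat X * (mat Y)ᵀ) g h = ((X ×ˢ Y).filter fun p => p.1 * p.2⁻¹ = g * h⁻¹).card := by
  rw [Matrix.mul_apply]
  simp only [mat, Matrix.of_apply, Matrix.transpose_apply, ite_mul, one_mul, zero_mul]
  have h1 : ∀ l : G, (if g * l⁻¹ ∈ X then (if h * l⁻¹ ∈ Y then (1 : ℝ) else 0) else 0)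
      = if (g * l⁻¹ ∈ X ∧ h * l⁻¹ ∈ Y) then 1 else 0 := by
    intro l
    by_cases a : g * l⁻¹ ∈ X <;> by_cases b : h * l⁻¹ ∈ Y <;> simp [a, b]
  rw [Finset.sum_congr rfl fun l _ => h1 l, Finset.sum_boole]
  congr 1
  refine Finset.card_nbij' (fun l => (g * l⁻¹, h * l⁻¹)) (fun p => p.1⁻¹ * g) ?_ ?_ ?_ ?_
  · intro l hl
    simp only [Finset.coe_filter, Finset.mem_univ, true_and, Set.mem_ofPred_eq] at hl
    simp only [Finset.coe_filter, Finset.mem_product, Set.mem_ofPred_eq]
    exact ⟨hl, by group⟩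
  · intro p hp
    simp only [Finset.coe_filter, Finset.mem_product, Set.mem_ofPred_eq] at hp
    simp only [Finset.coe_filter, Finset.mem_univ, true_and, Set.mem_ofPred_eq]
    obtain ⟨⟨h2, h3⟩, h4⟩ := hp
    have h5 : p.1⁻¹ * g = p.2⁻¹ * h := by
      have : g = p.1 * p.2⁻¹ * h := by rw [h4]; group
      rw [this]; group
    constructor
    · have : g * (p.1⁻¹ * g)⁻¹ = p.1 := by group
      rw [this]; exact h2
    · have : h * (p.1⁻¹ * g)⁻¹ = p.2 := by rw [h5]; group
      rw [this]; exact h3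
  · intro l _
    group
  · intro p hp
    simp only [Finset.coe_filter, Finset.mem_product, Set.mem_ofPred_eq] at hp
    obtain ⟨-, h4⟩ := hp
    have h5 : p.1⁻¹ * g = p.2⁻¹ * h := by
      have : g = p.1 * p.2⁻¹ * h := by rw [h4]; group
      rw [this]; group
    ext
    · show g * (p.1⁻¹ * g)⁻¹ = p.1
      group
    · show h * (p.1⁻¹ * g)⁻¹ = p.2
      rw [h5]; group

theorem mat_mul_J (X : Finset G) : mat X * (J : Matrix G G ℝ) = (X.card : ℝ) • J := by
  ext g h
  rw [Matrix.mul_apply]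
  simp only [mat, J, Matrix.of_apply, mul_one, Matrix.smul_apply, smul_eq_mul]
  rw [Finset.sum_boole]
  congr 1
  refine Finset.card_nbij' (fun l => g * l⁻¹) (fun x => x⁻¹ * g) ?_ ?_ ?_ ?_
  · intro l hl; simpa using hl
  · intro x hx; simpa using hx
  · intro l _; group
  · intro x _; show g * (x⁻¹ * g)⁻¹ = x; group

theorem J_mul_mat (X : Finset G) : (J : Matrix G G ℝ) * mat X = (X.card : ℝ) • J := by
  ext g h
  rw [Matrix.mul_apply]
  simp only [mat, J, Matrix.of_apply, one_mul, Matrix.smul_apply, smul_eq_mul, mul_one]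
  rw [Finset.sum_boole]
  congr 1
  refine Finset.card_nbij' (fun l => l * h⁻¹) (fun x => x * h) ?_ ?_ ?_ ?_
  · intro l hl; simpa using hl
  · intro x hx; simpa using hx
  · intro l _; group
  · intro x _; show x * h * h⁻¹ = x; group

omit [Group G] [DecidableEq G] in
theorem J_mul_J : (J : Matrix G G ℝ) * J = (Fintype.card G : ℝ) • J := by
  ext g h
  simp [J, Matrix.mul_apply]

omit [Group G] [Fintype G] [DecidableEq G] in
theorem J_transpose : (J : Matrix G G ℝ)ᵀ = J := by
  ext g h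
  simp [J]

/-- There is no strong external difference family with `lam = 1`, `m ≥ 3` and `k ≥ 2` in any finite
group, abelian or not. -/
theorem result (G : Type*) [Group G] [Fintype G] [DecidableEq G] (m k : ℕ) (hm : 3 ≤ m)
    (hk : 2 ≤ k) : ¬ ∃ A : Fin m → Finset G, IsSEDF m k 1 A := by
  rintro ⟨A, hA⟩
  set n : ℝ := (Fintype.card G : ℝ) with hn
  have hn0 : n ≠ 0 := by
    rw [hn]; exact_mod_cast Fintype.card_ne_zero
  set M : Fin m → Matrix G G ℝ := fun i => mat (A i) with hM
  set D := ∑ j, M j with hD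
  have hMJ : ∀ i, M i * J = (k : ℝ) • J := by
    intro i; simp only [hM]; rw [mat_mul_J, hA.card_eq]
  have hJM : ∀ i, J * M i = (k : ℝ) • J := by
    intro i; simp only [hM]; rw [J_mul_mat, hA.card_eq]
  -- the main identity
  have hmain : ∀ i, M i * (D - M i)ᵀ = J - 1 := by
    intro i
    have h1 : D - M i = ∑ j ∈ Finset.univ.erase i, M j := by
      rw [hD, ← Finset.add_sum_erase _ _ (Finset.mem_univ i)]
      abel
    rw [h1, Matrix.transpose_sum, Finset.mul_sum]
    ext g h
    rw [Matrix.sum_apply]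
    simp only [hM, mat_mul_transpose]
    rw [← Nat.cast_sum]
    by_cases hgh : g = h
    · subst hgh
      have : ∑ j ∈ Finset.univ.erase i,
          ((A i ×ˢ A j).filter fun p => p.1 * p.2⁻¹ = g * g⁻¹).card = 0 := by
        refine Finset.sum_eq_zero fun j hj => ?_
        rw [Finset.card_eq_zero, Finset.filter_eq_empty_iff]
        rintro ⟨x, y⟩ hp hxy
        rw [Finset.mem_product] at hp
        have hne : i ≠ j := (Finset.ne_of_mem_erase hj).symm
        have hxy' : x = y := by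
          simp only [mul_inv_cancel] at hxy
          exact mul_inv_eq_one.1 hxy
        exact Finset.disjoint_left.1 (hA.disjoint i j hne) hp.1 (hxy' ▸ hp.2)
      rw [this]
      simp [J]
    · rw [hA.count i (g * h⁻¹) (by
        intro hcon; exact hgh (mul_inv_eq_one.1 hcon))]
      simp [J, hgh]
  have hDJ : D * J = ((m : ℝ) * k) • J := by
    rw [hD, Finset.sum_mul, Finset.sum_congr rfl fun i _ => hMJ i]
    simp only [Finset.sum_const, Finset.card_univ, Fintype.card_fin, ← Nat.cast_smul_eq_nsmul ℝ,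
      smul_smul]
  have hJD : J * D = ((m : ℝ) * k) • J := by
    rw [hD, Finset.mul_sum, Finset.sum_congr rfl fun i _ => hJM i]
    simp only [Finset.sum_const, Finset.card_univ, Fintype.card_fin, ← Nat.cast_smul_eq_nsmul ℝ,
      smul_smul]
  -- counting
  have hcount : (k : ℝ) * (((m : ℝ) - 1) * k) = n - 1 := by
    have i0 : Fin m := ⟨0, by omega⟩
    have h1 : M i0 * (D - M i0)ᵀ * J = (J - 1) * J := by rw [hmain i0]
    have h2 : (D - M i0)ᵀ * J = (((m : ℝ) - 1) * k) • J := by
      have h3 : J * (D - M i0) = (((m : ℝ) - 1) * k) • J := by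
        rw [mul_sub, hJD, hJM, ← sub_smul]
        congr 1; ring
      have := congrArg Matrix.transpose h3
      rwa [Matrix.transpose_mul, J_transpose, Matrix.transpose_smul, J_transpose] at this
    rw [Matrix.mul_assoc, h2, mul_smul_comm, hMJ, sub_mul J 1 J, J_mul_J, one_mul, smul_smul] at h1
    have h4 := congrFun (congrFun h1 1) 1
    simp only [J, Matrix.smul_apply, Matrix.of_apply, smul_eq_mul, mul_one, Matrix.sub_apply] at h4
    rw [← hn] at h4
    linarith
  -- the projection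
  set E : Matrix G G ℝ := 1 - n⁻¹ • J with hE
  have hEt : Eᵀ = E := by
    rw [hE, Matrix.transpose_sub, Matrix.transpose_one, Matrix.transpose_smul, J_transpose]
  have hEJ : E * J = 0 := by
    rw [hE, sub_mul, one_mul, smul_mul_assoc, J_mul_J, smul_smul, ← hn, inv_mul_cancel₀ hn0,
      one_smul, sub_self]
  have hEE : E * E = E := by
    conv_lhs => rw [hE]
    rw [← hE, sub_mul, one_mul, smul_mul_assoc]
    have hJE : J * E = 0 := by
      have := congrArg Matrix.transpose hEJ
      rwa [Matrix.transpose_mul, J_transpose, hEt, Matrix.transpose_zero] at this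
    rw [hJE, smul_zero, sub_zero]
  have hcommE : ∀ i, E * M i = M i * E := by
    intro i
    rw [hE, sub_mul, mul_sub, one_mul, mul_one, smul_mul_assoc, mul_smul_comm, hJM, hMJ]
  have hcommD : E * D = D * E := by
    rw [hD, Finset.mul_sum, Finset.sum_mul]
    exact Finset.sum_congr rfl fun i _ => hcommE i
  have hcommDt : E * Dᵀ = Dᵀ * E := by
    have := congrArg Matrix.transpose hcommD
    rw [Matrix.transpose_mul, Matrix.transpose_mul, hEt] at this
    exact this.symm
  have hsumB : ∑ j, M j * E = D * E := by rw [hD, Finset.sum_mul]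
  refine no_family hm E (fun i => M i * E) hEt hEE ?_ ?_ ?_ ?_ ?_
  · intro i
    rw [Matrix.mul_assoc, hEE]
  · intro i
    rw [← Matrix.mul_assoc, hcommE, Matrix.mul_assoc, hEE]
  · intro i
    rw [hsumB, ← sub_mul, Matrix.transpose_mul, hEt, Matrix.mul_assoc, ← Matrix.mul_assoc E E, hEE,
      ← Matrix.mul_assoc, ← hcommE, Matrix.mul_assoc, hmain, mul_sub, hEJ, mul_one, zero_sub]
  · rw [hsumB]
    intro h0
    have h1 : D = (n⁻¹ * (m * k)) • J := by
      rw [hE, mul_sub, mul_one, mul_smul_comm, hDJ, smul_smul, sub_eq_zero] at h0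
      exact h0
    -- some entry is one
    have i0 : Fin m := ⟨0, by omega⟩
    obtain ⟨x, hx⟩ : (A i0).Nonempty := by
      rw [← Finset.card_pos, hA.card_eq]; omega
    have h2 := congrFun (congrFun h1 x) 1
    have h3 : D x 1 = 1 := by
      rw [hD, Matrix.sum_apply, Finset.sum_eq_single i0]
      · simp [hM, mat, hx]
      · intro j _ hj
        have : x ∉ A j := fun hxj => Finset.disjoint_left.1 (hA.disjoint i0 j hj.symm) hx hxj
        simp [hM, mat, this]
      · intro h; exact absurd (Finset.mem_univ _) h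
    rw [h3] at h2
    simp only [J, Matrix.smul_apply, Matrix.of_apply, smul_eq_mul, mul_one] at h2
    have h4 : n = m * k := by
      field_simp at h2
      linarith
    have h5 : (k : ℝ) * (((m : ℝ) - 1) * k) + 1 = m * k := by rw [hcount, h4]; ring
    have hk' : (2 : ℝ) ≤ k := by exact_mod_cast hk
    have hm' : (3 : ℝ) ≤ m := by exact_mod_cast hm
    nlinarith [mul_nonneg (sub_nonneg.2 hk') (sub_nonneg.2 hm')]
  · intro v t hv ht hvt
    rw [hsumB] at hvt
    have h1 : (D * E)ᵀ * (D * E) = Dᵀ * D * E := by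
      rw [Matrix.transpose_mul, hEt, Matrix.mul_assoc, ← Matrix.mul_assoc Dᵀ, ← Matrix.mul_assoc,
        ← Matrix.mul_assoc, hcommDt, Matrix.mul_assoc Dᵀ, hcommD, ← Matrix.mul_assoc,
        Matrix.mul_assoc (Dᵀ * D), hEE]
    have h2 : E * (Dᵀ * D * E) = Dᵀ * D * E := by
      rw [← h1, Matrix.transpose_mul, hEt, Matrix.mul_assoc E, ← Matrix.mul_assoc E E, hEE]
    rw [h1] at hvt
    have h3 : E *ᵥ v = v := by
      have h4 : E *ᵥ ((Dᵀ * D * E) *ᵥ v) = (Dᵀ * D * E) *ᵥ v := by
        rw [Matrix.mulVec_mulVec, h2]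
      rw [hvt, Matrix.mulVec_smul] at h4
      exact smul_right_injective _ ht h4
    have h5 : (Dᵀ * D) *ᵥ v = t • v := by
      have h9 : (Dᵀ * D * E) *ᵥ v = (Dᵀ * D) *ᵥ v := by rw [← Matrix.mulVec_mulVec, h3]
      rw [← h9, hvt]
    -- integrality
    let DZ : Matrix G G ℤ := ∑ j, Matrix.of fun g h => if g * h⁻¹ ∈ A j then 1 else 0
    have h6 : DZ.map (Int.cast : ℤ → ℝ) = D := by
      ext g h
      simp only [DZ, Matrix.map_apply, Matrix.sum_apply, Matrix.of_apply, hD, hM, mat]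
      push_cast
      rfl
    refine isIntegral_eigenvalue (DZᵀ * DZ) v t hv ?_
    have h7 : (DZᵀ * DZ).map (Int.cast : ℤ → ℝ) = Dᵀ * D := by
      have := Matrix.map_mul (L := DZᵀ) (M := DZ) (f := Int.castRingHom ℝ)
      have h8 : (DZᵀ * DZ).map (Int.cast : ℤ → ℝ)
          = (DZᵀ).map (Int.cast : ℤ → ℝ) * DZ.map (Int.cast : ℤ → ℝ) := this
      rw [h8, Matrix.transpose_map, h6]
    rw [h7, h5]

end SEDF

end Pool.Agent.Results.MP_2fa8e1_co.NoLambdaOne
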